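import Mathlib
import Pool.Agent.H950Z.IGMain

set_option autoImplicit false

namespace Pool.Agent.Results.MP_078bdc_al.BS23

open Pool.Agent.H950Z.IG

/-- The Baumslag-Solitar group `BS(2,3)` is finitely invariably generated (so invariably
generated) and has an isometric action of general type on a hyperbolic space. -/
theorem result :
    IsFIG BS23 ∧ IsIG BS23 ∧
      ∃ (X : Type) (_ : MetricSpace X) (_ : MulAction BS23 X),
        (∀ (g : BS23) (x y : X), dist (g • x) (g • y) = dist x y) ∧ Hyperbolic X ∧
          GeneralType BS23 X :=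
  ⟨fig, let ⟨S, _, h⟩ := fig; ⟨S, h⟩, main⟩

end Pool.Agent.Results.MP_078bdc_al.BS23
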